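import Pool.Agent.P8H10.ET.Cm
import Pool.Agent.P8H10.ET.All3

/-!
# The elliptico-toric conjecture for the deformations of CM curves with rationally approximable parameter

Let `q_0, q_1, …` be a sequence of integers `≥ 2`, and let `tower h` be the `h`-fold iterate of
`n ↦ 2 ^ n`. A real number is *rationally approximable* if, for some `h` and every `κ`, for all large `k`
it has a rational approximation with a denominator at most `tower h (q_k)` and with an error of at most
`1 / tower κ (q_k)`. These numbers form a field `R`. For the explicit sequence `q_k = 2 ^ e_k`, `e_0 = 1`,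
`e_(k + 1) = tower (k + 2) (e_k)` all sums of numbers `1 / q_k` over infinite sets of `k` are irrational elements of `R`.

Let `Ω = ℤ ω₁ + ℤ ω₂` be a lattice with complex multiplication and with algebraic invariants `g₂`, `g₃` (for example
the lattice of the periods of `y ^ 2 = 4 x ^ 3 - g x`), and let `x ∈ R` be **any** irrational element. Let `Λ` be the space of all
complex logarithms of algebraic numbers, and let `t_1, …, t_s ∈ Λ + x Λ` be **any** elements which are linearly independent
modulo `Λ` (no nontrivial integral combination is a logarithm of an algebraic number).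

**Theorem.** For the elliptic curve with the lattice `Ω' = ℤ ω₁ + ℤ x ω₂` and the numbers `t_1, …, t_s` the inequality of Q1
holds in full

* for `n = 0` (no points of the curve): the transcendence degree of `ℚ(g₂, g₃, t_k, exp t_k, ω₁, ω₂, η₁, η₂)` (for `Ω'`)
  is at least `s + 4`;
* for `n = 1` and **any** point `p = a ω₁ + b ω₂`, `a, b ∈ ℚ`, `b ≠ 0` (a torsion point of the undeformed curve): the
  transcendence degree of `ℚ(g₂, g₃, t_k, exp t_k, p, ℘(p), ζ(p), ω₁, ω₂, η₁, η₂)` (for `Ω'`) is at least `s + 6`.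

The curve has no complex multiplication, the classes of the `t_k` modulo `2 π i ℚ` are linearly independent, and `p` is not in
`Ω' ⊗ ℚ`, so that these are the right sides of Q1. More precisely, the `s + 6` numbers `2 π i`, `ω₂ / ω₁`, `g₂`, `g₃`, `℘(p)`,
`(|x| η₁(Ω') - η₁(Ω)) / ω₁`, `exp t_1, …, exp t_s` are algebraically independent.

The proof. If `x` is replaced by a rational number, then `Ω'` is commensurable with `Ω`, its invariants `g₂`, `g₃` are
sums of values of even derivatives of `℘` at torsion points for `Ω`, and `℘(p)` and `(|x| η₁(Ω') - η₁(Ω)) / ω₁` are sums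
of values of `℘` at such points. So they are algebraic numbers whose size is bounded by a
tower in the denominator (quantitative division polynomials), and the same is true for `exp t_k`. A
polynomial relation between these numbers for `x` is, by a Liouville inequality, true for its rational
approximations, so (identity theorem) it is an identity of functions of `x`; but `τ`, `E_4(τ)`, `E_6(τ)`, the quasi-period,
`℘(z; τ)` for a fixed number `z` which is not real, and exponential functions `exp (c τ)` with the occurring `c` are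
algebraically independent (modular transformations, limit points of `℘((τ + d) z; τ)`, and the theorem of Gelfond and
Schneider for the independence of the `exp c`). All these numbers are in an algebraically closed field which does not
contain `π` (`MP_9cd479_nt.PowerClosedFields` of the starting files), and the periods and quasi-periods of `Ω` are algebraic
over the field of Q1 by complex multiplication.
-/

set_option autoImplicit false

open scoped PeriodPair

noncomputable section

namespace Pool.Agent.Results.MP_8da9ea_nt.DeformedCMCurvesWithPoint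

/-- The `h`-fold iterate of `n ↦ 2 ^ n`. -/
def tower : ℕ → ℕ → ℕ
  | 0, q => q
  | h + 1, q => 2 ^ tower h q

/-- For some `h` and every `κ`, for all large `k` the real number `x` has a rational approximation with a
denominator at most `tower h (q k)` and with an error of at most `1 / tower κ (q k)`. -/
def RationallyApproximable (q : ℕ → ℕ) (x : ℝ) : Prop :=
  ∃ h : ℕ, ∀ κ : ℕ, ∃ k₀ : ℕ, ∀ k ≥ k₀, ∃ (u : ℤ) (v : ℕ), 1 ≤ v ∧ v ≤ tower h (q k) ∧
    |x - u / v| ≤ ((tower κ (q k) : ℕ) : ℝ)⁻¹

/-- The exponents `e_0 = 1`, `e_(k + 1) = tower (k + 2) (e_k)`. -/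
def e : ℕ → ℕ
  | 0 => 1
  | k + 1 => tower (k + 2) (e k)

/-- The explicit sequence `q_k = 2 ^ e_k`. -/
def q₀ (k : ℕ) : ℕ := 2 ^ e k

/-- The sum of the numbers `1 / q_k` over the elements `k` of the set `A`. -/
def number (A : Set ℕ) : ℝ :=
  ∑' k, Set.indicator A (fun k => 1 / (q₀ k : ℝ)) k

/-- The Weierstrass zeta function
`ζ(z) = 1/z + ∑_{l ≠ 0} (1/(z - l) + 1/l + z/l²)` (in Lean `1/0 = 0`, so that the term with `l = 0`
of the sum below is `1/z`). -/
def zetaW (L : PeriodPair) (z : ℂ) : ℂ := ∑' l : L.lattice, (1 / (z - l) + 1 / l + z / l ^ 2)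

/-- The quasi-period `η(ω) = ζ(z + ω) - ζ(z)` attached to `ω ∈ Ω`, computed at `z = ω₁/2`. -/
def quasi (L : PeriodPair) (ω : ℂ) : ℂ := zetaW L (L.ω₁ / 2 + ω) - zetaW L (L.ω₁ / 2)

/-- The generators `g₂`, `g₃`, `ω₁`, `ω₂`, `η₁`, `η₂`, `t_k`, `exp t_k` of the field in Q1 for `n = 0`. -/
def generators (L : PeriodPair) {s : ℕ} (t : Fin s → ℂ) : Set ℂ :=
  {L.g₂, L.g₃, L.ω₁, L.ω₂, quasi L L.ω₁, quasi L L.ω₂} ∪ Set.range t ∪
    Set.range fun k => Complex.exp (t k)

/-- The generators of the field in Q1 for one point `p` (`n = 1`): the generators above and `p`, `℘(p)`, `ζ(p)`. -/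
def generatorsWith (L : PeriodPair) {s : ℕ} (t : Fin s → ℂ) (p : ℂ) : Set ℂ :=
  generators L t ∪ {p, ℘[L] p, zetaW L p}

/-- The numbers `2 π i` and `ω₂ / ω₁`, `g₂`, `g₃`, `℘(p)` for the lattice `L'`, the number
`(|x| η₁(L') - η₁(L)) / ω₁(L)`, and `exp t_1, …, exp t_s`. -/
def family (L L' : PeriodPair) (x : ℝ) (p : ℂ) {s : ℕ} (t : Fin s → ℂ) : Fin 6 ⊕ Fin s → ℂ :=
  Sum.elim ![2 * (Real.pi : ℂ) * Complex.I, L'.ω₂ / L'.ω₁, L'.g₂, L'.g₃, ℘[L'] p,
    (((|x| : ℝ) : ℂ) * quasi L' L'.ω₁ - quasi L L.ω₁) / L.ω₁] fun k => Complex.exp (t k)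

theorem tower_eq : tower = Pool.Agent.R347.LW.tow := by
  funext h q
  induction h with
  | zero => rfl
  | succ h ih => rw [tower, Pool.Agent.R347.LW.tow, ih]

theorem rationallyApproximable_iff (q : ℕ → ℕ) (x : ℝ) :
    RationallyApproximable q x ↔ Pool.Agent.R347.LW.RAppr q x := by
  unfold RationallyApproximable Pool.Agent.R347.LW.RAppr
  rw [tower_eq]

theorem e_eq : e = Pool.Agent.R347.LW.eT := by
  funext k
  induction k with
  | zero => rfl
  | succ k ih => rw [e, Pool.Agent.R347.LW.eT, ih, tower_eq]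

theorem q₀_eq : q₀ = Pool.Agent.R347.LW.qT := by
  funext k
  rw [q₀, Pool.Agent.R347.LW.qT, e_eq]

theorem number_eq : number = Pool.Agent.R347.LW.xiT := by
  funext A
  rw [number, Pool.Agent.R347.LW.xiT]
  refine tsum_congr fun k => ?_
  have h1 : 1 / (q₀ k : ℝ) = (1 / 2 : ℝ) ^ Pool.Agent.R347.LW.eT k := by
    rw [q₀, e_eq]
    push_cast
    rw [one_div, one_div, inv_pow]
  by_cases h : k ∈ A
  · rw [Set.indicator_of_mem h, Pool.Agent.R347.LW.trT_of_mem h, h1]
  · rw [Set.indicator_of_notMem h, Pool.Agent.R347.LW.trT_of_notMem h]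

theorem irrational_number (A : Set ℕ) (hA : A.Infinite) : Irrational (number A) := by
  have h := Pool.Agent.P8H4.KM.irr 1 (fun _ => A) (fun _ => hA)
    (fun i j hij => absurd (Subsingleton.elim i j) hij) (fun _ => 1)
    (fun h => one_ne_zero (congrFun h 0))
  rw [number_eq]
  simpa using h

/-- **Main result.** -/
theorem result :
    (∀ q : ℕ → ℕ, (∀ k, 2 ≤ q k) → ∀ x : ℝ, RationallyApproximable q x → Irrational x →
      ∀ L L' : PeriodPair, IsAlgebraic ℚ L.g₂ → IsAlgebraic ℚ L.g₃ →
      (∃ α : ℂ, α.im ≠ 0 ∧ ∀ ω ∈ L.lattice, α * ω ∈ L.lattice) →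
      L'.ω₁ = L.ω₁ → L'.ω₂ = x * L.ω₂ →
      ∀ (s : ℕ) (t : Fin s → ℂ),
      (∀ k, ∃ l l' : ℂ, IsAlgebraic ℚ (Complex.exp l) ∧ IsAlgebraic ℚ (Complex.exp l') ∧
        t k = x * l + l') →
      (∀ m : Fin s → ℤ, IsAlgebraic ℚ (Complex.exp (∑ k, m k * t k)) → m = 0) →
      -- the inequality of Q1 for `n = 0`
      (s : Cardinal) + 4 ≤ Algebra.trdeg ℚ (IntermediateField.adjoin ℚ (generators L' t)) ∧
      -- the inequality of Q1 for `n = 1`
      (∀ a b : ℚ, b ≠ 0 →
        (s : Cardinal) + 6 ≤ Algebra.trdeg ℚ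
          (IntermediateField.adjoin ℚ (generatorsWith L' t (a * L.ω₁ + b * L.ω₂))) ∧
        AlgebraicIndependent ℚ (family L L' x (a * L.ω₁ + b * L.ω₂) t) ∧
        ∀ c d : ℚ, (a * L.ω₁ + b * L.ω₂ : ℂ) ≠ c * L'.ω₁ + d * L'.ω₂) ∧
      -- `s + 4` and `s + 6` are the right sides of Q1
      (∀ (c : Fin s → ℚ) (r : ℚ), ∑ k, (c k : ℂ) * t k = r * (2 * Real.pi * Complex.I) → c = 0) ∧
      (∀ α : ℂ, (∀ ω ∈ L'.lattice, α * ω ∈ L'.lattice) → ∃ n : ℤ, α = n)) ∧
    -- examples
    (∀ k, 2 ≤ q₀ k) ∧
    (∀ A : Set ℕ, A.Infinite → RationallyApproximable q₀ (number A) ∧ Irrational (number A)) ∧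
    (∀ g : ℂ, g ≠ 0 → ∃ L : PeriodPair, L.g₂ = g ∧ L.g₃ = 0 ∧
      ∀ ω ∈ L.lattice, Complex.I * ω ∈ L.lattice) := by
  refine ⟨?_, ?_, fun A hA => ⟨?_, irrational_number A hA⟩, fun g hg => ?_⟩
  · intro q hq x hx hirr L L' h2 h3 hCM hω₁ hω₂ s t ht hind
    rw [rationallyApproximable_iff] at hx
    have hCM' := hCM
    obtain ⟨α, hα, hαm⟩ := hCM
    choose l l' hl hl' htl using ht
    have hτ := Pool.Agent.P8H10.ET.ratio_alg hα hαm
    have hli := Pool.Agent.P8H10.ET.li_of htl hl' hind
    have hfun : t = fun k => x * l k + l' k := funext htl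
    obtain ⟨h4, h5⟩ := Pool.Agent.P8H10.ET.all hq L h2 h3 hτ l l' hl hl' hli x hx hirr L' hω₁ hω₂
    rw [← hfun] at h5
    refine ⟨h5, fun a b hb => ?_, fun c r => Pool.Agent.P8H10.ET.indep_pi hind c r, fun β hβ => ?_⟩
    · obtain ⟨h6, h7⟩ := Pool.Agent.P8H10.ET.all3 hq L h2 h3 hCM' hτ a b hb l l' hl hl' hli x hx
        hirr L' hω₁ hω₂
      rw [← hfun] at h7
      refine ⟨h7, ?_, fun c d hcd => ?_⟩
      · -- reindexing
        let f : Fin 6 ⊕ Fin s → Option (Fin 5 ⊕ Fin s) :=
          Sum.elim ![none, some (Sum.inl 0), some (Sum.inl 1), some (Sum.inl 2),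
            some (Sum.inl 4), some (Sum.inl 3)] fun k => some (Sum.inr k)
        have hf : Function.Injective f := by
          rintro (i | i) (j | j) hij
          · fin_cases i <;> fin_cases j <;> simp_all [f]
          · fin_cases i <;> simp [f] at hij
          · fin_cases j <;> simp [f] at hij
          · simpa [f] using hij
        have h8 := h6.comp f hf
        refine (funext fun i => ?_ : _ = family L L' x (a * L.ω₁ + b * L.ω₂) t) ▸ h8
        rcases i with i | k
        · fin_cases i <;> rfl
        · change Complex.exp (x * l k + l' k) = Complex.exp (t k)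
          rw [htl k]
      · -- the point is not a torsion point of the deformed curve
        rw [hω₁, hω₂] at hcd
        have h9 := LinearIndependent.pair_iff.1 L.indep (a - c) (b - d * x) (by
          simp only [Complex.real_smul]
          push_cast
          linear_combination hcd)
        have h10 : (b : ℝ) = d * x := by linarith [h9.2]
        have hd : (d : ℝ) ≠ 0 := by
          intro hd
          rw [hd, zero_mul] at h10
          exact hb (by exact_mod_cast h10)
        refine hirr ⟨b / d, ?_⟩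
        push_cast
        rw [h10, mul_div_cancel_left₀ _ hd]
    · refine Pool.Agent.P8H10.ET.no_cm ?_ hβ
      exact h4.transcendental (some (Sum.inl 0))
  · intro k
    rw [q₀_eq]
    exact Pool.Agent.R347.LW.two_le_qT k
  · rw [rationallyApproximable_iff, q₀_eq, number_eq]
    exact Pool.Agent.R347.LW.xiT_rappr A
  · obtain ⟨c, hc, h⟩ := H667R3.exists_sq_g₂ g hg
    exact ⟨H667R3.sq c hc, h, H667R3.g₃_eq_zero (H667R3.CM_sq), H667R3.CM_sq⟩

end Pool.Agent.Results.MP_8da9ea_nt.DeformedCMCurvesWithPoint
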