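import Pool.Agent.P8H40.TR.EllS
import Pool.Agent.P8H63.SE.Key
import Pool.Agent.P8H63.SE.Ell
import Pool.Agent.P8H47.SE.Pw
import Pool.Agent.P8H47.SE.Val

/-!
# The elliptico-toric inequality over the periods, in bounded degree, for the translates of every point at all tuples of
integers of a separated set

Let `E = ℂ/Λ` be the elliptic curve of a lattice with rational invariants `g₂`, `g₃`, let `(z, y)` be ANY point of the Lie
algebra `ℂⁿ × ℂˢ` of `Eⁿ × G_mˢ`, and let `w_1, …, w_r` be any complex numbers. The pairs of rational numbers `(A_i, B_i)`,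
`A_i > 0`, `i = 1, …, n`, are different, and `b_1, …, b_s` are different integers. For an integer `m` we translate `(z, y)` by the
logarithms of the algebraic point with the abscissas `A_i m + B_i` and the coordinates `m + b_j`:

  `℘(p_i - z_i) = A_i m + B_i`, `exp(t_j - y_j) = m + b_j`,

for all the choices of the elliptic logarithms and logarithms. The theorem: there is `G`, which depends only on `Λ`, the `A_i`,
`B_i`, `b_j`, and for all `k`, `r`, `δ`, `D` there are `c > 0` and `M₀`, which do not depend on `z`, `y`, `w`, such that every set `T`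
of integers of a window `[M, M + M^c]`, `M ≥ M₀`, with mutual distances at least `G` has at most `r + 5 n + s + 6` exceptional
elements, such that for ALL different `m_1, …, m_k` among the other ones every polynomial relation between

  `ω₁, ω₂, η₁, η₂, 2πi, w_1, …, w_r` and the `k (2 n + s)` numbers `p_li, ζ(p_li), t_lj`,

of degree at most `δ` in each unknown, over any number field of degree at most `D`, is an identity in the `k (2 n + s)` numbers.
So in bounded degree the transcendence degree of the numbers of the elliptico-toric conjecture over the field generated by the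
periods is at least `k (2 n + s)`, the full predicted contribution of the points (for `k n`, `k s` in the place of `n`, `s`). If `E`
has complex multiplication, then the transcendence degree of `ℚ(ω₁, ω₂, η₁, η₂)` is `2 = 4 / [k : ℚ]` (Chudnovsky), and one has
the whole lower bound of the conjecture, in bounded degree.

The `w_i` are arbitrary. (For `k = 1` it follows that the integers of the window with a nontrivial relation are in at most
`r + 5 n + s + 6` intervals of length less than `2 G`.)

The starting result `AlmostAllTranslates` of this problem has `n + s` independent parameters and an exceptional set of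
proportion `T^(-c)`; it says nothing about the diagonal (one parameter `m`) or about short windows.

The proof: if there is a nontrivial relation for a tuple, then the values of the primitives at one of its elements are
dependent, in bounded degree, over the constants (periods, `w`, `z_i`, `ζ(z_i)`, `℘(z_i)`, `℘'(z_i)`, `y_j`: `r + 4 n + s + 5`
numbers) and the values at the others, by an affine substitution with denominators and the addition theorem of `ζ`
(starting file `Pool.Agent.H667R3.W5`). By the theorem on separated sets (`Pool.Agent.P8H40.TR.sets_gen`; helper5: choice of the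
exceptions, helper93: partial evaluation of relations, helper76: calculus of bounded coefficients) there are at most
`r + 4 n + s + 6` exceptions; it rests on the families of G-functions of `MP_12eca1_ag.AbelianCoversAllTuples` (packages by
helper63, helper47, helper88). The integers `m` with `℘(z_i) = A_i m + B_i` are also exceptions.
-/

set_option autoImplicit false

open Module
open scoped PeriodPair

namespace Pool.Agent.Results.MP_8da9ea_nt.FewClustersOfTranslates

/-- The Weierstrass zeta function `ζ(z) = ∑ (1/(z-l) + 1/l + z/l²)`, the sum over the lattice (the summand of `l = 0` is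
`1/z`, since `1/0 = 0` in Lean). -/
noncomputable def zeta (Λ : PeriodPair) (z : ℂ) : ℂ := ∑' l : Λ.lattice, (1 / (z - l) + 1 / l + z / l ^ 2)

/-- The quasi-periods `η₁ = 2 ζ(ω₁/2)` and `η₂ = 2 ζ(ω₂/2)`. -/
noncomputable def eta (Λ : PeriodPair) : Fin 2 → ℂ := ![2 * zeta Λ (Λ.ω₁ / 2), 2 * zeta Λ (Λ.ω₂ / 2)]

/-- The constants `ω₁`, `ω₂`, `η₁`, `η₂`, `2πi` and `w_1, …, w_r`. -/
noncomputable def constants (Λ : PeriodPair) {r : ℕ} (w : Fin r → ℂ) : Fin 5 ⊕ Fin r → ℂ :=
  Sum.elim ![Λ.ω₁, Λ.ω₂, eta Λ 0, eta Λ 1, 2 * Real.pi * Complex.I] w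

/-- The numbers `p_i`, `ζ(p_i)` and `t_j`. -/
noncomputable def logarithms (Λ : PeriodPair) {n s : ℕ} (p : Fin n → ℂ) (t : Fin s → ℂ) : Fin n ⊕ (Fin n ⊕ Fin s) → ℂ :=
  Sum.elim p (Sum.elim (fun i => zeta Λ (p i)) t)

/-- `(p, t)` is the sum of `(z, y)` and a logarithm of the point of `Eⁿ × G_mˢ` with the abscissas `A_i m + B_i` and the
coordinates `m + b_j`; no `p_i` is in the lattice. -/
def IsTranslate (Λ : PeriodPair) {n s : ℕ} (A B : Fin n → ℚ) (b : Fin s → ℤ) (z : Fin n → ℂ) (y : Fin s → ℂ) (m : ℕ)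
    (p : Fin n → ℂ) (t : Fin s → ℂ) : Prop :=
  (∀ i, p i ∉ Λ.lattice ∧ p i - z i ∉ Λ.lattice ∧ ℘[Λ] (p i - z i) = (A i : ℂ) * m + B i) ∧
    ∀ j, Complex.exp (t j - y j) = (m : ℂ) + b j

/-- The theorem. -/
theorem result (Λ : PeriodPair) (g2 g3 : ℚ) (h2 : Λ.g₂ = (g2 : ℂ)) (h3 : Λ.g₃ = (g3 : ℂ)) {n s : ℕ} (A B : Fin n → ℚ)
    (hA : ∀ i, 0 < A i) (hAB : Function.Injective fun i => (A i, B i)) (b : Fin s → ℤ) (hb : Function.Injective b) :
    ∃ G : ℕ, ∀ k r δ D : ℕ, ∃ (c : ℝ) (M₀ : ℕ), 0 < c ∧ ∀ M : ℕ, M₀ ≤ M → ∀ (w : Fin r → ℂ) (z : Fin n → ℂ) (y : Fin s → ℂ),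
      ∀ T : Finset ℕ, (∀ m ∈ T, M ≤ m ∧ (m : ℝ) ≤ M + (M : ℝ) ^ c) → (∀ m ∈ T, ∀ m' ∈ T, m ≠ m' → (G : ℤ) ≤ |(m : ℤ) - m'|) →
      ∃ S : Finset ℕ, S ⊆ T ∧ S.card ≤ r + 5 * n + s + 6 ∧ ∀ m : Fin k → ℕ, Function.Injective m → (∀ l, m l ∈ T \ S) →
        ∀ (p : Fin k → Fin n → ℂ) (t : Fin k → Fin s → ℂ), (∀ l, IsTranslate Λ A B b z y (m l) (p l) (t l)) →
          ∀ (K : IntermediateField ℚ ℂ) [FiniteDimensional ℚ K], finrank ℚ K ≤ D →
            ∀ P : MvPolynomial ((Fin 5 ⊕ Fin r) ⊕ Fin k × (Fin n ⊕ (Fin n ⊕ Fin s))) K, (∀ x, P.degreeOf x ≤ δ) →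
              MvPolynomial.aeval (Sum.elim (constants Λ w) fun x => logarithms Λ (p x.1) (t x.1) x.2) P = 0 →
                ∀ v : Fin k × (Fin n ⊕ (Fin n ⊕ Fin s)) → ℂ, MvPolynomial.aeval (Sum.elim (constants Λ w) v) P = 0 := by
  obtain ⟨G, hG⟩ := P8H40.TR.ell_sets P8H63.SE.key_thm P8H63.SE.sim_thm P8H47.SE.pw P8H47.SE.pri P8H88.SE.gfd
    P8H47.SE.val P8H63.SE.ell_thm Λ g2 g3 h2 h3 A B hA hAB b hb
  refine ⟨G, fun k r δ D => ?_⟩
  obtain ⟨c, M₀, hc, h⟩ := hG k r δ D
  refine ⟨c, M₀, hc, fun M hM w z y T hT hTs => ?_⟩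
  obtain ⟨S, hS, hSc, hm⟩ := h M hM w z y T hT hTs
  exact ⟨S, hS, hSc, fun m h4 h5 p t ht K _ hK P hP h0 v => hm m h4 h5 p t (fun l => (ht l).1) (fun l => (ht l).2) K hK P hP h0 v⟩

end Pool.Agent.Results.MP_8da9ea_nt.FewClustersOfTranslates
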