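import Pool.Agent.P8H10.ET.Cm
import Pool.Agent.P8H10.ET.All2

/-!
# The period conjecture (`s = n = 0`) for all lattices `ℤ ω₁ + ℤ (a ω₁ + b ω₂)` with rationally approximable `a`, `b`

Let `q_0, q_1, …` be a sequence of integers `≥ 2`, and let `tower h` be the `h`-fold iterate of
`n ↦ 2 ^ n`. A real number is *rationally approximable* if, for some `h` and every `κ`, for all large `k`
it has a rational approximation with a denominator at most `tower h (q_k)` and with an error of at most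
`1 / tower κ (q_k)`. These numbers form a field `R`, which contains `ℚ`. For the explicit sequence `q_k = 2 ^ e_k`, `e_0 = 1`,
`e_(k + 1) = tower (k + 2) (e_k)` all sums of numbers `1 / q_k` over infinite sets of `k` are irrational elements of `R`.

Let `Ω = ℤ ω₁ + ℤ ω₂` be a lattice with complex multiplication and with algebraic invariants `g₂`, `g₃` (for example
the lattice of the periods of `y ^ 2 = 4 x ^ 3 - g x`).

**Theorem.** Let `a`, `b` be **any** elements of `R`, not both rational, `b ≠ 0`. Then the inequality of Q1 holds for the elliptic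
curve with the lattice `Ω' = ℤ ω₁ + ℤ (a ω₁ + b ω₂)` and `s = n = 0`: the transcendence degree of
`ℚ(g₂, g₃, ω₁, ω₂, η₁, η₂)` (for `Ω'`) is at least `4`. More precisely, the numbers `2 π i`, `ω₂ / ω₁`, `g₂`, `g₃` are algebraically
independent, and the curve has no complex multiplication, so that `4` is the right side of Q1.

The proof. The point `a + b τ`, `τ = ω₂ / ω₁`, is approximated by the numbers `(u₁ + u₂ τ) / v`, for which `Ω'` is commensurable with
`Ω`, and its invariants are sums of values of even derivatives of `℘` at torsion points, algebraic numbers of bounded size. A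
relation between `ω₂ / ω₁`, `g₂`, `g₃` is, by a Liouville inequality, true at these points, which accumulate at `a + b τ`,
so it is an identity between the functions `τ`, `E_4(τ)`, `E_6(τ)` in a half plane; but they are algebraically independent. The values are
in an algebraically closed field which does not contain `π` (`MP_9cd479_nt.PowerClosedFields` of the starting files).
-/

set_option autoImplicit false

open scoped PeriodPair

noncomputable section

namespace Pool.Agent.Results.MP_8da9ea_nt.LatticesOverR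

/-- The `h`-fold iterate of `n ↦ 2 ^ n`. -/
def tower : ℕ → ℕ → ℕ
  | 0, q => q
  | h + 1, q => 2 ^ tower h q

/-- For some `h` and every `κ`, for all large `k` the real number `x` has a rational approximation with a
denominator at most `tower h (q k)` and with an error of at most `1 / tower κ (q k)`. -/
def RationallyApproximable (q : ℕ → ℕ) (x : ℝ) : Prop :=
  ∃ h : ℕ, ∀ κ : ℕ, ∃ k₀ : ℕ, ∀ k ≥ k₀, ∃ (u : ℤ) (v : ℕ), 1 ≤ v ∧ v ≤ tower h (q k) ∧
    |x - u / v| ≤ ((tower κ (q k) : ℕ) : ℝ)⁻¹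

/-- The exponents `e_0 = 1`, `e_(k + 1) = tower (k + 2) (e_k)`. -/
def e : ℕ → ℕ
  | 0 => 1
  | k + 1 => tower (k + 2) (e k)

/-- The explicit sequence `q_k = 2 ^ e_k`. -/
def q₀ (k : ℕ) : ℕ := 2 ^ e k

/-- The sum of the numbers `1 / q_k` over the elements `k` of the set `A`. -/
def number (A : Set ℕ) : ℝ :=
  ∑' k, Set.indicator A (fun k => 1 / (q₀ k : ℝ)) k

/-- The Weierstrass zeta function
`ζ(z) = 1/z + ∑_{l ≠ 0} (1/(z - l) + 1/l + z/l²)` (in Lean `1/0 = 0`, so that the term with `l = 0`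
of the sum below is `1/z`). -/
def zetaW (L : PeriodPair) (z : ℂ) : ℂ := ∑' l : L.lattice, (1 / (z - l) + 1 / l + z / l ^ 2)

/-- The quasi-period `η(ω) = ζ(z + ω) - ζ(z)` attached to `ω ∈ Ω`, computed at `z = ω₁/2`. -/
def quasi (L : PeriodPair) (ω : ℂ) : ℂ := zetaW L (L.ω₁ / 2 + ω) - zetaW L (L.ω₁ / 2)

/-- The generators `g₂`, `g₃`, `ω₁`, `ω₂`, `η₁`, `η₂` of the field in Q1 for `s = n = 0`. -/
def generators (L : PeriodPair) : Set ℂ :=
  {L.g₂, L.g₃, L.ω₁, L.ω₂, quasi L L.ω₁, quasi L L.ω₂}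

theorem tower_eq : tower = Pool.Agent.R347.LW.tow := by
  funext h q
  induction h with
  | zero => rfl
  | succ h ih => rw [tower, Pool.Agent.R347.LW.tow, ih]

theorem rationallyApproximable_iff (q : ℕ → ℕ) (x : ℝ) :
    RationallyApproximable q x ↔ Pool.Agent.R347.LW.RAppr q x := by
  unfold RationallyApproximable Pool.Agent.R347.LW.RAppr
  rw [tower_eq]

theorem e_eq : e = Pool.Agent.R347.LW.eT := by
  funext k
  induction k with
  | zero => rfl
  | succ k ih => rw [e, Pool.Agent.R347.LW.eT, ih, tower_eq]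

theorem q₀_eq : q₀ = Pool.Agent.R347.LW.qT := by
  funext k
  rw [q₀, Pool.Agent.R347.LW.qT, e_eq]

theorem number_eq : number = Pool.Agent.R347.LW.xiT := by
  funext A
  rw [number, Pool.Agent.R347.LW.xiT]
  refine tsum_congr fun k => ?_
  have h1 : 1 / (q₀ k : ℝ) = (1 / 2 : ℝ) ^ Pool.Agent.R347.LW.eT k := by
    rw [q₀, e_eq]
    push_cast
    rw [one_div, one_div, inv_pow]
  by_cases h : k ∈ A
  · rw [Set.indicator_of_mem h, Pool.Agent.R347.LW.trT_of_mem h, h1]
  · rw [Set.indicator_of_notMem h, Pool.Agent.R347.LW.trT_of_notMem h]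

theorem irrational_number (A : Set ℕ) (hA : A.Infinite) : Irrational (number A) := by
  have h := Pool.Agent.P8H4.KM.irr 1 (fun _ => A) (fun _ => hA)
    (fun i j hij => absurd (Subsingleton.elim i j) hij) (fun _ => 1)
    (fun h => one_ne_zero (congrFun h 0))
  rw [number_eq]
  simpa using h

/-- **Main result.** -/
theorem result :
    (∀ q : ℕ → ℕ, (∀ k, 2 ≤ q k) → ∀ a b : ℝ, RationallyApproximable q a →
      RationallyApproximable q b → (Irrational a ∨ Irrational b) →
      ∀ L L' : PeriodPair, IsAlgebraic ℚ L.g₂ → IsAlgebraic ℚ L.g₃ →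
      (∃ α : ℂ, α.im ≠ 0 ∧ ∀ ω ∈ L.lattice, α * ω ∈ L.lattice) →
      L'.ω₁ = L.ω₁ → L'.ω₂ = a * L.ω₁ + b * L.ω₂ →
      -- the inequality of Q1 for `s = n = 0`
      4 ≤ Algebra.trdeg ℚ (IntermediateField.adjoin ℚ (generators L')) ∧
      AlgebraicIndependent ℚ
        ![2 * (Real.pi : ℂ) * Complex.I, L'.ω₂ / L'.ω₁, L'.g₂, L'.g₃] ∧
      -- `4` is the right side of Q1
      (∀ α : ℂ, (∀ ω ∈ L'.lattice, α * ω ∈ L'.lattice) → ∃ n : ℤ, α = n)) ∧
    -- the lattices
    (∀ (L : PeriodPair) (a b : ℝ), b ≠ 0 →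
      ∃ L' : PeriodPair, L'.ω₁ = L.ω₁ ∧ L'.ω₂ = a * L.ω₁ + b * L.ω₂) ∧
    -- the rationally approximable numbers are a field, and examples
    (∀ q : ℕ → ℕ, (∀ k, 2 ≤ q k) → ∃ R : Subfield ℝ, ∀ x : ℝ, x ∈ R ↔ RationallyApproximable q x) ∧
    (∀ k, 2 ≤ q₀ k) ∧
    (∀ A : Set ℕ, A.Infinite → RationallyApproximable q₀ (number A) ∧ Irrational (number A)) ∧
    (∀ g : ℂ, g ≠ 0 → ∃ L : PeriodPair, L.g₂ = g ∧ L.g₃ = 0 ∧
      ∀ ω ∈ L.lattice, Complex.I * ω ∈ L.lattice) := by
  refine ⟨?_, fun L a b hb => ⟨Pool.Agent.P8H10.ET.stretch2 L a b hb, rfl, rfl⟩, ?_, ?_,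
    fun A hA => ⟨?_, irrational_number A hA⟩, fun g hg => ?_⟩
  · intro q hq a b ha hb hirr L L' h2 h3 hCM hω₁ hω₂
    rw [rationallyApproximable_iff] at ha hb
    obtain ⟨α, hα, hαm⟩ := hCM
    have hτ := Pool.Agent.P8H10.ET.ratio_alg hα hαm
    obtain ⟨h4, h5⟩ := Pool.Agent.P8H10.ET.all2 hq L h2 h3 hτ a b ha hb hirr L' hω₁ hω₂
    refine ⟨h5, h4, fun β hβ => ?_⟩
    refine Pool.Agent.P8H10.ET.no_cm ?_ hβ
    exact h4.transcendental 1
  · intro q hq
    refine ⟨(Pool.Agent.R347.LW.UR hq).toSubfield, fun x => ?_⟩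
    rw [rationallyApproximable_iff]
    exact Iff.rfl
  · intro k
    rw [q₀_eq]
    exact Pool.Agent.R347.LW.two_le_qT k
  · rw [rationallyApproximable_iff, q₀_eq, number_eq]
    exact Pool.Agent.R347.LW.xiT_rappr A
  · obtain ⟨c, hc, h⟩ := H667R3.exists_sq_g₂ g hg
    exact ⟨H667R3.sq c hc, h, H667R3.g₃_eq_zero (H667R3.CM_sq), H667R3.CM_sq⟩

end Pool.Agent.Results.MP_8da9ea_nt.LatticesOverR
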