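import Pool.Agent.P8H30.LG.Main2

/-!
# The elliptico-toric conjecture in bounded degree for Legendre curves: the full bound `4 + s`, `n = 0`, `s = 1`

Let `c ≥ 1` be an integer and `λ = c / t` for integers `t > c`. The elliptic curve `E_t : y² = 4 x³ - g₂ x - g₃` with the rational
invariants `g₂ = (4/3) (1 - λ + λ²)`, `g₃ = (4/27) (1 + λ) (2 - λ) (1 - 2 λ)` (a Legendre curve) has the periods and quasi-periods
`ω₁ = 2 K(λ)`, `ω₂ = 2 i K(1 - λ)`, `η₁ = 2 E(λ) - (2/3) (2 - λ) K(λ)`, `η₂ = -2 i (E(1 - λ) - ((1 + λ)/3) K(1 - λ))`, where `K`, `E` are the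
complete elliptic integrals of the first and second kind, as functions of the parameter `λ = k²`. So over number fields
which contain `i` the numbers `ω₁, ω₂, η₁, η₂` and the numbers `K(λ), K(1 - λ), E(λ), K(1 - λ) - E(1 - λ)` are linear
combinations of each other.

**Theorem.** There is `G` such that for all `δ`, `D` there are `κ > 0` and `M₀` such that for `M ≥ M₀` every set `T` of integers of
`[M, M + M^κ]` with distances at least `G` has a subset `S` with at most `3` elements such that for all `t ∈ T \ S` the five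
numbers `log t`, `K(λ), K(1 - λ), E(λ), K(1 - λ) - E(1 - λ)` satisfy no nonzero polynomial relation of degree at most `δ` in each
of them over any number field of degree at most `D`. This is the inequality of the conjecture (`4 + s` for `n = 0`, `s = 1`,
`t_1 = log t`) in bounded degree; no bound for the heights of the coefficients.

More generally, let `w_1, …, w_r` be arbitrary complex numbers: with at most `r + 3` exceptions in `T`, for all distinct `t_1, …, t_k`
in the rest of `T`, every relation of degree at most `δ` over a number field of degree at most `D` between the `w_i` and the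
`5 k` numbers above for `t_1, …, t_k` holds for all values of the `5 k` numbers (`w` fixed) which satisfy the Legendre relations
`det = -π/2`.

Proof. The complete elliptic integrals are expressed by the Frobenius basis at `λ = 0` (`Pool.Agent.P8H30.LG`, with
packages of helper16, helper22, helper26, helper52, helper59), the relations between the Frobenius bases at several points and
arbitrary constants are determined in `Pool.Agent.P8H40.CY` (helper40, with helper5, helper52, helper76, helper93): G-functions at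
several points (Chudnovsky, André), growth of dimensions, elimination.
-/

set_option autoImplicit false

open Module

namespace Pool.Agent.Results.MP_8da9ea_nt.LegendreCurves

/-- the complete elliptic integral of the first kind, `x = k²` -/
noncomputable def ellK (x : ℝ) : ℝ := ∫ θ in (0 : ℝ)..(Real.pi / 2), 1 / √(1 - x * Real.sin θ ^ 2)

/-- the complete elliptic integral of the second kind, `x = k²` -/
noncomputable def ellE (x : ℝ) : ℝ := ∫ θ in (0 : ℝ)..(Real.pi / 2), √(1 - x * Real.sin θ ^ 2)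

/-- the period matrix with the rows `K(x), K(1 - x)` and `E(x), K(1 - x) - E(1 - x)`; its determinant is `-π/2` (Legendre) -/
noncomputable def periods (x : ℝ) : Matrix (Fin 2) (Fin 2) ℂ :=
  !![((ellK x : ℝ) : ℂ), ((ellK (1 - x) : ℝ) : ℂ); ((ellE x : ℝ) : ℂ), ((ellK (1 - x) - ellE (1 - x) : ℝ) : ℂ)]

/-- the values `L` and `Z i j` of the five unknowns which stand for a logarithm and for the entries of a period matrix -/
def values (L : ℂ) (Z : Matrix (Fin 2) (Fin 2) ℂ) : Option (Fin 2 × Fin 2) → ℂ :=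
  fun s => s.elim L fun q => Z q.1 q.2

/-- the values `w i` and the values of the five unknowns for each of `k` curves -/
def allValues {r k : ℕ} (w : Fin r → ℂ) (L : Fin k → ℂ) (Z : Fin k → Matrix (Fin 2) (Fin 2) ℂ) :
    Fin r ⊕ Fin k × Option (Fin 2 × Fin 2) → ℂ :=
  Sum.elim w fun s => values (L s.1) (Z s.1) s.2

/-- `T` is a set of integers in the window `[M, M + M^κ]` with distances at least `G` -/
def Separated (G M : ℕ) (κ : ℝ) (T : Finset ℕ) : Prop :=
  (∀ t ∈ T, M ≤ t ∧ (t : ℝ) ≤ M + (M : ℝ) ^ κ) ∧ ∀ t ∈ T, ∀ t' ∈ T, t ≠ t' → (G : ℤ) ≤ |(t : ℤ) - t'|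

theorem result (c : ℕ) (hc : 1 ≤ c) : ∃ G : ℕ, 1 ≤ G ∧
    (∀ δ D : ℕ, ∃ (κ : ℝ) (M₀ : ℕ), 0 < κ ∧ c < M₀ ∧ ∀ M : ℕ, M₀ ≤ M → ∀ T : Finset ℕ, Separated G M κ T →
      ∃ S : Finset ℕ, S ⊆ T ∧ S.card ≤ 3 ∧ ∀ t ∈ T \ S, ∀ (K : IntermediateField ℚ ℂ) [FiniteDimensional ℚ K], finrank ℚ K ≤ D →
        ∀ F : MvPolynomial (Option (Fin 2 × Fin 2)) K, (∀ x, F.degreeOf x ≤ δ) → F ≠ 0 →
          MvPolynomial.aeval (values (Real.log t : ℝ) (periods ((c : ℝ) / t))) F ≠ 0) ∧
    ∀ k r δ D : ℕ, ∃ (κ : ℝ) (M₀ : ℕ), 0 < κ ∧ c < M₀ ∧ ∀ M : ℕ, M₀ ≤ M → ∀ (w : Fin r → ℂ) (T : Finset ℕ), Separated G M κ T →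
      ∃ S : Finset ℕ, S ⊆ T ∧ S.card ≤ r + 3 ∧ ∀ t : Fin k → ℕ, Function.Injective t → (∀ l, t l ∈ T \ S) →
        ∀ (K : IntermediateField ℚ ℂ) [FiniteDimensional ℚ K], finrank ℚ K ≤ D →
          ∀ F : MvPolynomial (Fin r ⊕ Fin k × Option (Fin 2 × Fin 2)) K, (∀ x, F.degreeOf x ≤ δ) →
            MvPolynomial.aeval (allValues w (fun l => ((Real.log (t l) : ℝ) : ℂ)) fun l => periods ((c : ℝ) / t l)) F = 0 →
            ∀ (L : Fin k → ℂ) (Z : Fin k → Matrix (Fin 2) (Fin 2) ℂ), (∀ l, (Z l).det = -((Real.pi / 2 : ℝ) : ℂ)) →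
              MvPolynomial.aeval (allValues w L Z) F = 0 := by
  obtain ⟨G₁, hG₁, h1⟩ := Pool.Agent.P8H30.LG.first c hc
  obtain ⟨G₂, hG₂, h2⟩ := Pool.Agent.P8H30.LG.first_free c hc
  refine ⟨max G₁ G₂, hG₁.trans (le_max_left _ _), fun δ D => ?_, fun k r δ D => ?_⟩
  · obtain ⟨κ, M₀, hκ, hM₀, h⟩ := h2 δ D
    refine ⟨κ, M₀, hκ, hM₀, fun M hM T hT => ?_⟩
    obtain ⟨S, hST, hS, hSt⟩ := h M hM T hT.1 fun t ht t' ht' htt =>
      le_trans (by exact_mod_cast le_max_right G₁ G₂) (hT.2 t ht t' ht' htt)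
    exact ⟨S, hST, hS, fun t ht K _ hK F hF hF0 => hSt t ht K hK F hF hF0⟩
  · obtain ⟨κ, M₀, hκ, hM₀, h⟩ := h1 k r δ D
    refine ⟨κ, M₀, hκ, hM₀, fun M hM w T hT => ?_⟩
    obtain ⟨S, hST, hS, hSt⟩ := h M hM w T hT.1 fun t ht t' ht' htt =>
      le_trans (by exact_mod_cast le_max_left G₁ G₂) (hT.2 t ht t' ht' htt)
    exact ⟨S, hST, hS, fun t htinj htS K _ hK F hF hrel L Z hZ => hSt t htinj htS K hK F hF hrel L Z hZ⟩

end Pool.Agent.Results.MP_8da9ea_nt.LegendreCurves
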